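import Pool.Agent.H29.FL4.Stmts

/-!
# Board fl4, row IJ4: `Λ_s d` determines `s`
-/

set_option autoImplicit false

open Matrix MeasureTheory

namespace Pool.FL4

open Pool.FLT

namespace H86

private theorem copr (p q : ℤ) (h : p ^ 2 - 2 * q ^ 2 = 1) (h3 : ¬ (3 : ℤ) ∣ p) :
    IsCoprime p (q + 1) := by
  rw [Int.isCoprime_iff_gcd_eq_one]
  set g := Int.gcd p (q + 1) with hg
  have h1 : (g : ℤ) ∣ p := Int.gcd_dvd_left ..
  have h2 : (g : ℤ) ∣ q + 1 := Int.gcd_dvd_right ..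
  have h4 : (g : ℤ) ∣ 3 := by
    have e : (3 : ℤ) = p * p + (q + 1) * (-2 * (q + 1) + 4) := by linear_combination -h
    rw [e]
    exact dvd_add (Dvd.dvd.mul_right h1 _) (Dvd.dvd.mul_right h2 _)
  have h5 : g ∣ 3 := by exact_mod_cast h4
  rcases (Nat.dvd_prime Nat.prime_three).1 h5 with h | h
  · exact h
  · exfalso
    rw [h] at h1
    exact h3 h1

end H86

theorem ij4 (hSEQ : SEQStmt) (hPOS : POSStmt) (_hDET : DETStmt) : IJ4Stmt := by
  intro i hi s1 hs1 s2 hs2 s d h1 h2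
  obtain ⟨hPQ, hP1, hQ0, -, hP3, -, -, -⟩ := hSEQ i
  obtain ⟨-, -, hy0, -, -, hy1, hy3, hyp0, hyp2, -, -, -, -, -⟩ := hPOS i hi
  have hw : inL i (s1 : ℤ) (fun j => yy i j - s1) := by
    refine ⟨![1, 0, 0, 0], fun j => ?_⟩
    simp
  have hz : inL i s (fun j => (yy i j - s1) * (d j)⁻¹) := by
    rw [h1.2]
    have e : (fun j => (yy i j - s1) * (d j)⁻¹ * d j) = fun j => yy i j - s1 := by
      funext j
      rw [mul_assoc, inv_mul_cancel₀ (h1.1 j), mul_one]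
    rw [e]
    exact hw
  rw [h2.2] at hz
  have e : (fun j => (yy i j - s1) * (d j)⁻¹ * d j) = fun j => yy i j - s1 := by
    funext j
    rw [mul_assoc, inv_mul_cancel₀ (h1.1 j), mul_one]
  rw [e] at hz
  obtain ⟨m, hm⟩ := hz
  have q0 := hm 0
  have q1 := hm 1
  have q2 := hm 2
  have q3 := hm 3
  simp only [hy1, hy3, be] at q0 q1 q2 q3
  have r0 : r 0 = √2 := rfl
  have r1 : r 1 = √2 := rfl
  have r2 : r 2 = -√2 := rfl
  have r3 : r 3 = -√2 := rfl
  rw [r0] at q0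
  rw [r1] at q1
  rw [r2] at q2
  rw [r3] at q3
  have hs : √2 * √2 = (2 : ℝ) := Real.mul_self_sqrt (by norm_num)
  have hsp : 0 < √(2 : ℝ) := Real.sqrt_pos.2 (by norm_num)
  have a1 : (m 0 : ℝ) + m 1 * √2 = 1 := by
    have : ((m 0 : ℝ) + m 1 * √2 - 1) * yy i 0 = 0 := by linear_combination (q1 - q0) / 2
    rcases mul_eq_zero.1 this with h | h
    · linarith
    · exact absurd h (hy0 0)
  have a2 : (m 0 : ℝ) - m 1 * √2 = 1 := by
    have : ((m 0 : ℝ) - m 1 * √2 - 1) * yy i 2 = 0 := by linear_combination (q3 - q2) / 2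
    rcases mul_eq_zero.1 this with h | h
    · linarith
    · exact absurd h (hy0 2)
  have b1 : ((s2 : ℤ) : ℝ) - s1 = (m 2 + m 3 * √2) * (P i + (Q i + 1) * √2) := by
    linear_combination q0 + (yy i 0 - ((s2 : ℤ) : ℝ)) * a1
  have b2 : ((s2 : ℤ) : ℝ) - s1 = (m 2 - m 3 * √2) * (P i - (Q i + 1) * √2) := by
    linear_combination q2 + (yy i 2 - ((s2 : ℤ) : ℝ)) * a2
  have c1 : (((s2 : ℤ) - s1 : ℤ) : ℝ) = ((m 2 * P i + 2 * m 3 * (Q i + 1) : ℤ) : ℝ) := by
    push_cast at b1 b2 ⊢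
    linear_combination (b1 + b2) / 2 + (m 3 : ℝ) * (Q i + 1) * hs
  have c2 : ((m 2 * (Q i + 1) + m 3 * P i : ℤ) : ℝ) = 0 := by
    have : (((m 2 * (Q i + 1) + m 3 * P i : ℤ) : ℝ)) * √2 = 0 := by
      push_cast at b1 b2 ⊢
      linear_combination (b2 - b1) / 2
    rcases mul_eq_zero.1 this with h | h
    · exact h
    · exact absurd h hsp.ne'
  have d1 : (s2 : ℤ) - s1 = m 2 * P i + 2 * m 3 * (Q i + 1) := by exact_mod_cast c1
  have d2 : m 2 * (Q i + 1) + m 3 * P i = 0 := by exact_mod_cast c2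
  obtain ⟨u, v, huv⟩ := H86.copr (P i) (Q i) hPQ hP3
  have hd : (4 * Q i + 1) ∣ ((s2 : ℤ) - s1) := by
    refine ⟨-u * m 2 + v * m 3, ?_⟩
    have e1 : ((s2 : ℤ) - s1) * P i = -(m 2) * (4 * Q i + 1) := by
      rw [d1]
      linear_combination m 2 * hPQ + 2 * (Q i + 1) * d2
    have e2 : ((s2 : ℤ) - s1) * (Q i + 1) = m 3 * (4 * Q i + 1) := by
      rw [d1]
      linear_combination P i * d2 - m 3 * hPQ
    linear_combination (-((s2 : ℤ) - s1)) * huv + u * e1 + v * e2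
  have l1 : (s1 : ℤ) < 4 * Q i + 1 := by
    have := (Finset.mem_filter.1 hs1).1
    rw [Finset.mem_range] at this
    omega
  have l2 : (s2 : ℤ) < 4 * Q i + 1 := by
    have := (Finset.mem_filter.1 hs2).1
    rw [Finset.mem_range] at this
    omega
  have hzero : (s2 : ℤ) - s1 = 0 := by
    apply Int.eq_zero_of_abs_lt_dvd hd
    rw [abs_lt]
    constructor <;> omega
  omega

end Pool.FL4
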